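import Pool.Agent.Lib.MP_d61eec_lc.Final

/-!
# The Post correspondence problem for free groups is undecidable

A homomorphism `ψ : F_n → F_m` is given by the tuple of the reduced words
`(ψ (FreeGroup.of i)).toWord : List (Fin m × Bool)`, `i : Fin n`. Algorithms are total computable
functions in the sense of Mathlib (`Computable`).
-/

set_option autoImplicit false

namespace Pool.Agent.Results.MP_d61eec_lc.FreeGroupPCP

theorem result : ∃ n₀ : ℕ, ∀ n ≥ n₀, ∀ m ≥ 2,
    ∃ φ : FreeGroup (Fin n) →* FreeGroup (Fin m), Function.Injective φ ∧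
      ¬ ∃ A : (Fin n → List (Fin m × Bool)) → Bool, Computable A ∧
        ∀ ψ : FreeGroup (Fin n) →* FreeGroup (Fin m),
          (A (fun i => (ψ (FreeGroup.of i)).toWord) = true ↔ ∃ x, x ≠ 1 ∧ φ x = ψ x) :=
  Pool.Agent.Lib.MP_d61eec_lc.pcp_undecidable

end Pool.Agent.Results.MP_d61eec_lc.FreeGroupPCP
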